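import Mathlib
import Pool.Agent.R947.QNum

/-!
# The Crouzeix-type bound for scaled `q`-numerical ranges

For a complex `n × n` matrix `A` and `0 < |q| ≤ 1` let `W_q(A)` be the set of the numbers `⟨A x, y⟩` with unit vectors
`x`, `y` such that `⟨x, y⟩ = q`, and let `Ω_q = W_q(A) / q`. We prove
`‖p(A)‖ ≤ max(1, 2|q| / (1 + √(1 - |q|²))) sup_{Ω_q} |p|` for all polynomials `p`.

If `n = 1` and `|q| < 1`, then `W_q(A)` is empty and there is no inequality to prove; in all other cases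
(`n ≥ 2`, or `|q| = 1`) the set is nonempty and bounded.
-/

set_option autoImplicit false

open ComplexConjugate

namespace Pool.Agent.Results.MP_16d611_an.ScaledCrouzeix

/-- The `q`-numerical range `W_q(A)`: the numbers `⟨A x, y⟩` with `‖x‖ = ‖y‖ = 1` and `⟨x, y⟩ = q`, where
`⟨x, y⟩ = ∑ i, x i * conj (y i)`. -/
def qRange {n : ℕ} (A : Matrix (Fin n) (Fin n) ℂ) (q : ℂ) : Set ℂ :=
  {w | ∃ x y : EuclideanSpace ℂ (Fin n), ‖x‖ = 1 ∧ ‖y‖ = 1 ∧ ∑ i, x i * conj (y i) = q ∧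
    w = ∑ i, (∑ j, A i j * x j) * conj (y i)}

/-- The scaled `q`-numerical range `Ω_q = W_q(A) / q`. -/
def scaledRange {n : ℕ} (A : Matrix (Fin n) (Fin n) ℂ) (q : ℂ) : Set ℂ :=
  {z | ∃ w ∈ qRange A q, z = w / q}

/-- The operator norm of a matrix for the Euclidean norm on `ℂⁿ`. -/
noncomputable def opNorm {n : ℕ} (B : Matrix (Fin n) (Fin n) ℂ) : ℝ :=
  ‖Matrix.toEuclideanCLM (n := Fin n) (𝕜 := ℂ) B‖

/-- The constant `c(q) = max(1, 2|q| / (1 + √(1 - |q|²)))`. -/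
noncomputable def constC (q : ℂ) : ℝ := max 1 (2 * ‖q‖ / (1 + Real.sqrt (1 - ‖q‖ ^ 2)))

theorem inner_eq {n : ℕ} (x y : EuclideanSpace ℂ (Fin n)) : inner ℂ y x = ∑ i, x i * conj (y i) := by
  rw [PiLp.inner_apply]
  simp

theorem clm_apply {n : ℕ} (A : Matrix (Fin n) (Fin n) ℂ) (x : EuclideanSpace ℂ (Fin n)) (i : Fin n) :
    (Matrix.toEuclideanCLM (n := Fin n) (𝕜 := ℂ) A x) i = ∑ j, A i j * x j := rfl

theorem mem_of_Om {n : ℕ} (A : Matrix (Fin n) (Fin n) ℂ) (q : ℂ) (hq : q ≠ 0) (w : ℂ)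
    (hw : w ∈ Pool.Agent.R947.QNum.Om (Matrix.toEuclideanCLM (n := Fin n) (𝕜 := ℂ) A) ((‖q‖ : ℝ) : ℂ)) :
    w ∈ scaledRange A q := by
  obtain ⟨x, y, hx, hy, hxy, hw⟩ := hw
  have hn : ((‖q‖ : ℝ) : ℂ) ≠ 0 := by
    exact_mod_cast norm_ne_zero_iff.mpr hq
  set u : ℂ := q / ((‖q‖ : ℝ) : ℂ) with hu
  have hu1 : ‖u‖ = 1 := by
    rw [hu, norm_div, Complex.norm_real, norm_norm, div_self (norm_ne_zero_iff.mpr hq)]
  have hu0 : u ≠ 0 := norm_ne_zero_iff.mp (by rw [hu1]; exact one_ne_zero)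
  have huq : u * ((‖q‖ : ℝ) : ℂ) = q := by rw [hu]; field_simp
  refine ⟨inner ℂ (conj u • y) (Matrix.toEuclideanCLM (n := Fin n) (𝕜 := ℂ) A x),
    ⟨x, conj u • y, hx, ?_, ?_, ?_⟩, ?_⟩
  · rw [norm_smul, RCLike.norm_conj, hu1, hy, one_mul]
  · rw [← inner_eq, inner_smul_left, Complex.conj_conj, hxy, huq]
  · rw [inner_eq]
    rfl
  · rw [inner_smul_left, Complex.conj_conj, hw, div_eq_div_iff hn hq]
    linear_combination (-(inner ℂ y (Matrix.toEuclideanCLM (n := Fin n) (𝕜 := ℂ) A x) : ℂ)) * huq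

theorem exists_orth {n : ℕ} (hn : 2 ≤ n) (x : EuclideanSpace ℂ (Fin n)) :
    ∃ z : EuclideanSpace ℂ (Fin n), ‖z‖ = 1 ∧ inner ℂ z x = (0 : ℂ) := by
  have h1 : (Submodule.span ℂ {x})ᗮ ≠ ⊥ := by
    intro h
    rw [Submodule.orthogonal_eq_bot_iff] at h
    have h2 := finrank_span_le_card (R := ℂ) ({x} : Set (EuclideanSpace ℂ (Fin n)))
    rw [h, finrank_top, finrank_euclideanSpace, Fintype.card_fin] at h2
    simp at h2
    omega
  obtain ⟨z, hz, hz0⟩ := Submodule.exists_mem_ne_zero_of_ne_bot h1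
  have hzn : ‖z‖ ≠ 0 := norm_ne_zero_iff.mpr hz0
  refine ⟨((‖z‖⁻¹ : ℝ) : ℂ) • z, ?_, ?_⟩
  · rw [norm_smul, Complex.norm_real, norm_inv, norm_norm, inv_mul_cancel₀ hzn]
  · rw [inner_smul_left]
    have := (Submodule.mem_orthogonal' _ _).mp hz x (Submodule.mem_span_singleton_self x)
    rw [this, mul_zero]

theorem bdd {n : ℕ} (A : Matrix (Fin n) (Fin n) ℂ) (q : ℂ) (p : Polynomial ℂ) :
    BddAbove ((fun z => ‖p.eval z‖) '' scaledRange A q) := by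
  have hsub : scaledRange A q ⊆ Metric.closedBall 0 (opNorm A / ‖q‖) := by
    rintro z ⟨w, ⟨x, y, hx, hy, hxy, hw⟩, rfl⟩
    rw [mem_closedBall_zero_iff, norm_div]
    gcongr
    have h : w = inner ℂ y (Matrix.toEuclideanCLM (n := Fin n) (𝕜 := ℂ) A x) := by
      rw [inner_eq, hw]; rfl
    rw [h]
    refine (norm_inner_le_norm _ _).trans ?_
    rw [hy, one_mul]
    have := (Matrix.toEuclideanCLM (n := Fin n) (𝕜 := ℂ) A).le_opNorm x
    rwa [hx, mul_one] at this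
  have hc : Continuous fun z : ℂ => ‖p.eval z‖ := by fun_prop
  exact ((isCompact_closedBall (0 : ℂ) (opNorm A / ‖q‖)).image hc).bddAbove.mono
    (Set.image_mono hsub)

/-- **The Crouzeix-type bound for scaled `q`-numerical ranges.** Let `A` be a complex `n × n` matrix, `n ≥ 1`, and
`0 < |q| ≤ 1`; if `n = 1` let `|q| = 1`. Then `Ω_q` is nonempty, every polynomial `p` is bounded on `Ω_q`, and
`‖p(A)‖ ≤ c(q) sup_{z ∈ Ω_q} |p(z)|`. -/
theorem result (n : ℕ) (hn : 1 ≤ n) (A : Matrix (Fin n) (Fin n) ℂ) (q : ℂ) (hq0 : q ≠ 0) (hq1 : ‖q‖ ≤ 1)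
    (hnq : n = 1 → ‖q‖ = 1) (p : Polynomial ℂ) :
    (scaledRange A q).Nonempty ∧ BddAbove ((fun z => ‖p.eval z‖) '' scaledRange A q) ∧
      opNorm (Polynomial.aeval A p) ≤ constC q * sSup ((fun z => ‖p.eval z‖) '' scaledRange A q) := by
  have : NeZero n := ⟨by omega⟩
  have : Nontrivial (EuclideanSpace ℂ (Fin n)) := by infer_instance
  set T := Matrix.toEuclideanCLM (n := Fin n) (𝕜 := ℂ) A with hT
  have hq : 0 < ‖q‖ := norm_pos_iff.mpr hq0
  have hz : ∀ x : EuclideanSpace ℂ (Fin n), ‖x‖ = 1 → ‖q‖ = 1 ∨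
      ∃ z : EuclideanSpace ℂ (Fin n), ‖z‖ = 1 ∧ inner ℂ z x = (0 : ℂ) := by
    intro x _
    rcases hn.eq_or_lt with h | h
    · exact Or.inl (hnq h.symm)
    · exact Or.inr (exists_orth h x)
  have hb := bdd A q p
  refine ⟨?_, hb, ?_⟩
  · obtain ⟨x, hx⟩ := exists_norm_eq (EuclideanSpace ℂ (Fin n)) zero_le_one
    exact ⟨_, mem_of_Om A q hq0 _
      (Pool.Agent.R947.QNum.circle_mem T ‖q‖ hq hq1 x hx (hz x hx) 1 (by simp))⟩
  · have h1 := Pool.Agent.R947.QNum.main T ‖q‖ hq hq1 hz p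
      (sSup ((fun z => ‖p.eval z‖) '' scaledRange A q))
      (fun w hw => le_csSup hb ⟨w, mem_of_Om A q hq0 w hw, rfl⟩)
    have h2 : Matrix.toEuclideanCLM (n := Fin n) (𝕜 := ℂ) (Polynomial.aeval A p) =
        Polynomial.aeval T p :=
      (Polynomial.aeval_algHom_apply
        ((Matrix.toEuclideanCLM (n := Fin n) (𝕜 := ℂ)).toAlgEquiv.toAlgHom) A p).symm
    unfold opNorm constC
    rw [h2]
    exact h1

end Pool.Agent.Results.MP_16d611_an.ScaledCrouzeix
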